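import Pool.Agent.X328.GN.Stm

/-!
# Project GN, part SPEC: algebraic relations at special parameters
-/

set_option autoImplicit false

universe u

namespace Pool.Agent.X60.GN

open Finset Polynomial

/-- an algebraic element over a field generated by `g i`: a relation with polynomial coefficients -/
theorem alg_rel {L : Type*} [Field L] [Algebra ℚ L] {ι : Type*} (g : ι → L) (y : L)
    (h : IsAlgebraic (IntermediateField.adjoin ℚ (Set.range g)) y) :
    ∃ (M : ℕ) (G : ℕ → MvPolynomial ι ℚ), (∃ m ≤ M, MvPolynomial.aeval g (G m) ≠ 0) ∧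
      ∑ m ∈ range (M + 1), MvPolynomial.aeval g (G m) * y ^ m = 0 := by
  open scoped IntermediateField.algebraAdjoinAdjoin in
  have h2 : IsAlgebraic (Algebra.adjoin ℚ (Set.range g)) y :=
    (IsFractionRing.isAlgebraic_iff (Algebra.adjoin ℚ (Set.range g))
      (IntermediateField.adjoin ℚ (Set.range g)) L).mpr h
  obtain ⟨p, hp, hy⟩ := h2
  have h3 : ∀ m : ℕ, ∃ G : MvPolynomial ι ℚ, MvPolynomial.aeval g G = (p.coeff m : L) := by
    intro m
    have h5 := Algebra.adjoin_range_eq_range_aeval ℚ g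
    have h4 : (p.coeff m : L) ∈ (MvPolynomial.aeval g : MvPolynomial ι ℚ →ₐ[ℚ] L).range :=
      (le_of_eq h5) (p.coeff m).2
    exact h4
  choose G hG using h3
  refine ⟨p.natDegree, G, ⟨p.natDegree, le_rfl, ?_⟩, ?_⟩
  · rw [hG]
    intro h5
    have h6 : p.leadingCoeff = 0 := Subtype.ext h5
    exact hp (leadingCoeff_eq_zero.mp h6)
  · rw [Polynomial.aeval_eq_sum_range] at hy
    rw [← hy]
    refine sum_congr rfl fun m _ => ?_
    rw [hG, Algebra.smul_def]
    rfl

theorem lift_spec {R : Type*} [CommRing R] [Algebra ℚ R] {ι : Type*} (a : ι → R) (r : R)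
    (K : Type*) [Field K] [Algebra ℚ K] (φ : R →+* K) (hr : φ r ≠ 0) :
    ∃ Φ : Localization.Away r →+* K,
      (∀ x : R, Φ (algebraMap R (Localization.Away r) x) = φ x) ∧
      ∀ G : MvPolynomial ι ℚ, Φ (MvPolynomial.aeval (fun j =>
        algebraMap R (Localization.Away r) (a j) * IsLocalization.Away.invSelf r) G) =
        MvPolynomial.aeval (fun j => φ (a j) / φ r) G := by
  let Φ : Localization.Away r →+* K := IsLocalization.Away.lift r (g := φ) (Ne.isUnit hr)
  have h1 : ∀ x : R, Φ (algebraMap R (Localization.Away r) x) = φ x :=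
    fun x => IsLocalization.Away.lift_eq r _ x
  refine ⟨Φ, h1, fun G => ?_⟩
  have h2 : Φ (IsLocalization.Away.invSelf r) = (φ r)⁻¹ := by
    have h3 : algebraMap R (Localization.Away r) r * IsLocalization.Away.invSelf r = 1 :=
      IsLocalization.Away.mul_invSelf r
    have h4 := congrArg Φ h3
    rw [map_mul, map_one, h1] at h4
    exact (inv_eq_of_mul_eq_one_right h4).symm
  have h5 := MvPolynomial.comp_aeval_apply (R := ℚ) (fun j =>
        algebraMap R (Localization.Away r) (a j) * IsLocalization.Away.invSelf r)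
        (Φ.toRatAlgHom) G
  have h6 : (fun j => Φ.toRatAlgHom (algebraMap R (Localization.Away r) (a j) *
      IsLocalization.Away.invSelf r)) = fun j => φ (a j) / φ r := by
    funext j
    change Φ _ = _
    rw [map_mul, h1, h2, div_eq_mul_inv]
  rw [h6] at h5
  exact h5

/-- specialisation of a relation -/
theorem spec {R : Type*} [CommRing R] [IsDomain R] [Algebra ℚ R] {L : Type*} [Field L]
    [Algebra ℚ L] [Algebra R L] [IsFractionRing R L] {ι : Type*} (a : ι → R) (r x : R)
    (hr : r ≠ 0) (M : ℕ) (G : ℕ → MvPolynomial ι ℚ)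
    (hne : ∃ m ≤ M, MvPolynomial.aeval (fun j => algebraMap R L (a j) /
      algebraMap R L r) (G m) ≠ 0)
    (hrel : ∑ m ∈ range (M + 1), MvPolynomial.aeval (fun j => algebraMap R L (a j) /
      algebraMap R L r) (G m) * (algebraMap R L x) ^ m = 0) :
    ∃ e : R, e ≠ 0 ∧ ∀ (K : Type*) [Field K] [Algebra ℚ K] (φ : R →+* K), φ r ≠ 0 → φ e ≠ 0 →
      (∃ m ≤ M, MvPolynomial.aeval (fun j => φ (a j) / φ r) (G m) ≠ 0) ∧
      ∑ m ∈ range (M + 1), MvPolynomial.aeval (fun j => φ (a j) / φ r) (G m) * φ x ^ m = 0 := by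
  have hr' : algebraMap R L r ≠ 0 := by
    intro h
    exact hr ((IsFractionRing.injective R L) (by rw [h, map_zero]))
  obtain ⟨Φ, hΦ, hΦG⟩ := lift_spec a r L (algebraMap R L) hr'
  set b : ι → Localization.Away r := fun j =>
        algebraMap R (Localization.Away r) (a j) * IsLocalization.Away.invSelf r with hb
  have hunit : ∀ n : ℕ, IsUnit (algebraMap R (Localization.Away r) (r ^ n)) := by
    intro n
    rw [map_pow]
    exact (IsLocalization.Away.algebraMap_isUnit r).pow n
  have hsurj : ∀ s : Localization.Away r, ∃ (n : ℕ) (c : R),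
      s * algebraMap R (Localization.Away r) (r ^ n) = algebraMap R (Localization.Away r) c := by
    intro s
    obtain ⟨n, c, h⟩ := IsLocalization.Away.surj r s
    refine ⟨n, c, ?_⟩
    rw [map_pow]
    exact h
  have hinj : ∀ s : Localization.Away r, Φ s = 0 → s = 0 := by
    intro s hs
    obtain ⟨n, c, h⟩ := hsurj s
    have h2 := congrArg Φ h
    rw [map_mul, hs, zero_mul, hΦ] at h2
    have h3 : c = 0 := (IsFractionRing.injective R L) (by rw [← h2, map_zero])
    rw [h3, map_zero] at h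
    exact (IsUnit.mul_left_eq_zero (hunit n)).mp h
  have hrel' : ∑ m ∈ range (M + 1), MvPolynomial.aeval b (G m) *
      (algebraMap R (Localization.Away r) x) ^ m = 0 := by
    apply hinj
    rw [map_sum, ← hrel]
    refine sum_congr rfl fun m _ => ?_
    rw [map_mul, map_pow, hΦ, hΦG]
  obtain ⟨m, hm, hmne⟩ := hne
  have hmne' : MvPolynomial.aeval b (G m) ≠ 0 := by
    intro h
    apply hmne
    rw [← hΦG, h, map_zero]
  obtain ⟨n, e, he⟩ := hsurj (MvPolynomial.aeval b (G m))
  refine ⟨e, ?_, ?_⟩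
  · intro h0
    rw [h0, map_zero] at he
    exact hmne' ((IsUnit.mul_left_eq_zero (hunit n)).mp he)
  · intro K _ _ φ hφr hφe
    obtain ⟨Ψ, hΨ, hΨG⟩ := lift_spec a r K φ hφr
    refine ⟨⟨m, hm, ?_⟩, ?_⟩
    · intro h0
      have h2 := congrArg Ψ he
      rw [map_mul, hΨG, h0, zero_mul, hΨ] at h2
      exact hφe h2.symm
    · have h2 := congrArg Ψ hrel'
      rw [map_sum, map_zero] at h2
      rw [← h2]
      refine sum_congr rfl fun m _ => ?_
      rw [map_mul, map_pow, hΨ, hΨG]

/-- both steps, with abstract data -/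
theorem alg_spec {R : Type*} [CommRing R] [IsDomain R] [Algebra ℚ R] {L : Type*} [Field L]
    [Algebra ℚ L] [Algebra R L] [IsFractionRing R L] {ι : Type*} (a : ι → R) (r x : R)
    (hr : r ≠ 0)
    (h : IsAlgebraic (IntermediateField.adjoin ℚ (Set.range fun j => algebraMap R L (a j) /
      algebraMap R L r)) (algebraMap R L x)) :
    ∃ (M : ℕ) (G : ℕ → MvPolynomial ι ℚ) (e : R), e ≠ 0 ∧
      ∀ (K : Type*) [Field K] [Algebra ℚ K] (φ : R →+* K), φ r ≠ 0 → φ e ≠ 0 →
      (∃ m ≤ M, MvPolynomial.aeval (fun j => φ (a j) / φ r) (G m) ≠ 0) ∧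
      ∑ m ∈ range (M + 1), MvPolynomial.aeval (fun j => φ (a j) / φ r) (G m) * φ x ^ m = 0 := by
  obtain ⟨M, G, hne, hrel⟩ := alg_rel _ _ h
  obtain ⟨e, he, hK⟩ := spec a r x hr M G hne hrel
  exact ⟨M, G, e, he, fun K _ _ φ => hK K φ⟩

open Pool.Agent.X328.GN in
theorem t_SPEC (hA : S_ALG) (hC : S_CHI.{0, u}) : S_SPEC.{u} := by
  intro d hd
  obtain ⟨h1, h2, h3⟩ := hA d hd
  have h4 : ∀ i : Ix d, ∃ (M : ℕ) (G : ℕ → MvPolynomial (Fin (d ^ 3 + 1)) ℚ)
      (e : MvPolynomial (Ix d) ℚ), e ≠ 0 ∧ ∀ (K : Type u) [Field K] [Algebra ℚ K]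
      (φ : MvPolynomial (Ix d) ℚ →+* K),
      φ ((chi d (fun i => (MvPolynomial.X i : MvPolynomial (Ix d) ℚ))).coeff (d ^ 3)) ≠ 0 →
      φ e ≠ 0 →
      (∃ m ≤ M, MvPolynomial.aeval (fun j : Fin (d ^ 3 + 1) =>
        φ ((chi d (fun i => (MvPolynomial.X i : MvPolynomial (Ix d) ℚ))).coeff j) /
        φ ((chi d (fun i => (MvPolynomial.X i : MvPolynomial (Ix d) ℚ))).coeff (d ^ 3)))
          (G m) ≠ 0) ∧
      ∑ m ∈ range (M + 1), MvPolynomial.aeval (fun j : Fin (d ^ 3 + 1) =>
        φ ((chi d (fun i => (MvPolynomial.X i : MvPolynomial (Ix d) ℚ))).coeff j) /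
        φ ((chi d (fun i => (MvPolynomial.X i : MvPolynomial (Ix d) ℚ))).coeff (d ^ 3)))
          (G m) * φ (MvPolynomial.X i) ^ m = 0 := by
    intro i
    exact alg_spec (fun j : Fin (d ^ 3 + 1) =>
      (chi d (fun i => (MvPolynomial.X i : MvPolynomial (Ix d) ℚ))).coeff j)
      ((chi d (fun i => (MvPolynomial.X i : MvPolynomial (Ix d) ℚ))).coeff (d ^ 3))
      (MvPolynomial.X i) h1 (h3 i)
  choose M G e he hK using h4
  refine ⟨(chi d (fun i => (MvPolynomial.X i : MvPolynomial (Ix d) ℚ))).coeff (d ^ 3) *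
    (Ph d (fun i => (MvPolynomial.X i : MvPolynomial (Ix d) ℚ))).coeff (d ^ 3) * ∏ i, e i,
    univ.sup M, fun i m => if m ≤ M i then G i m else 0, ?_, ?_⟩
  · exact mul_ne_zero (mul_ne_zero h1 h2) (prod_ne_zero_iff.mpr fun i _ => he i)
  · intro K _ _ κ hD
    let φ : MvPolynomial (Ix d) ℚ →+* K := (MvPolynomial.aeval κ : MvPolynomial (Ix d) ℚ →ₐ[ℚ] K)
    have hφ : ∀ p, MvPolynomial.aeval κ p = φ p := fun p => rfl
    have hX : (fun i => φ (MvPolynomial.X i)) = κ := by
      funext i
      exact MvPolynomial.aeval_X κ i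
    rw [hφ, map_mul, map_mul, map_prod] at hD
    have hD1 := left_ne_zero_of_mul (left_ne_zero_of_mul hD)
    have hD2 := right_ne_zero_of_mul (left_ne_zero_of_mul hD)
    have hD3 := right_ne_zero_of_mul hD
    have hchi : ∀ j, (chi d κ).coeff j =
        φ ((chi d (fun i => (MvPolynomial.X i : MvPolynomial (Ix d) ℚ))).coeff j) := by
      intro j
      have h5 := (hC.1 (MvPolynomial (Ix d) ℚ) K φ d (fun i => MvPolynomial.X i)).2.2.2
      rw [hX] at h5
      rw [← h5, coeff_map]
    have hPh : ∀ j, (Ph d κ).coeff j =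
        φ ((Ph d (fun i => (MvPolynomial.X i : MvPolynomial (Ix d) ℚ))).coeff j) := by
      intro j
      have h5 := (hC.1 (MvPolynomial (Ix d) ℚ) K φ d (fun i => MvPolynomial.X i)).2.2.1
      rw [hX] at h5
      rw [← h5, coeff_map]
    refine ⟨?_, ?_, ?_⟩
    · rw [hchi]
      exact hD1
    · rw [hPh]
      exact hD2
    · intro i
      obtain ⟨⟨m, hm, hmne⟩, hrel⟩ := hK i K φ hD1 (prod_ne_zero_iff.mp hD3 i (mem_univ i))
      have hM : M i ≤ univ.sup M := le_sup (mem_univ i)
      have hfun : (fun j : Fin (d ^ 3 + 1) => (chi d κ).coeff j / (chi d κ).coeff (d ^ 3)) =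
          fun j : Fin (d ^ 3 + 1) =>
          φ ((chi d (fun i => (MvPolynomial.X i : MvPolynomial (Ix d) ℚ))).coeff j) /
          φ ((chi d (fun i => (MvPolynomial.X i : MvPolynomial (Ix d) ℚ))).coeff (d ^ 3)) := by
        funext j
        rw [hchi, hchi]
      have hXi : φ (MvPolynomial.X i) = κ i := congrFun hX i
      rw [hfun]
      refine ⟨⟨m, hm.trans hM, ?_⟩, ?_⟩
      · beta_reduce
        rw [if_pos hm]
        exact hmne
      · rw [hXi] at hrel
        have hsub : range (M i + 1) ⊆ range (univ.sup M + 1) :=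
          range_subset_range.mpr (Nat.add_le_add_right hM 1)
        rw [← hrel]
        symm
        apply sum_subset_zero_on_sdiff hsub
        · intro m' hm'
          have h6 : ¬ m' ≤ M i := by
            have := (mem_sdiff.mp hm').2
            rw [mem_range] at this
            omega
          beta_reduce
          rw [if_neg h6, map_zero, zero_mul]
        · intro m' hm'
          have h6 : m' ≤ M i := by
            rw [mem_range] at hm'
            omega
          beta_reduce
          rw [if_pos h6]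

end Pool.Agent.X60.GN
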